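import Pool.Agent.FTU.Stmts

set_option autoImplicit false

namespace Pool.Agent.FTU.H1

open Complex
open Pool.Agent.FTU

theorem alg (hCJA : CjaStmt) (hCJB : CjbStmt) (hFRM : FrmStmt) (hGFN : GfnStmt) (hSYM : SymStmt)
    (hNRM : NrmStmt) : AlgStmt := by
  intro M
  obtain ⟨cjcj, cjC, cjxe, -, -, -, -, -, -, -, -, -, -⟩ := hCJA
  obtain ⟨JtP, -, -, xeJt, -, -, dtxe, -, -, -, -, -, -, -, -, canc, -⟩ := hCJB
  obtain ⟨u, f, eps, r1, r2, g, h, heps, hu, hf, h1, h2⟩ := hFRM M M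
  obtain ⟨G, hG⟩ := hGFN
  obtain ⟨hS, hSj⟩ := hSYM G hG M eps u f heps
  -- constants
  obtain ⟨i, hi⟩ : ∃ i : RR, i = MvPolynomial.C I := ⟨_, rfl⟩
  obtain ⟨hf', hhf⟩ : ∃ c : RR, c = MvPolynomial.C (1 / 2 : ℂ) := ⟨_, rfl⟩
  have ii : i * i = -1 := by
    rw [hi, ← map_mul, I_mul_I, map_neg, map_one]
  have hh : 2 * hf' = 1 := by
    have h2 : (2 : RR) = MvPolynomial.C (2 : ℂ) := by rw [map_ofNat]
    rw [hhf, h2, ← map_mul]
    norm_num
  have cmI : (MvPolynomial.C (-I) : RR) = -i := by rw [hi, map_neg]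
  have cjh : cj hf' = hf' := by
    rw [hhf, cjC, map_div₀, map_one, map_ofNat]
  have cji : cj i = -i := by
    rw [hi, cjC, conj_I, map_neg]
  -- `j`
  obtain ⟨j, hj⟩ : ∃ j : RR, j = G (cj f * f) - G (cj u * u) := ⟨_, rfl⟩
  rw [← hj] at hS hSj
  have hxM : ∀ m : ℕ, xe ^ m ∈ Jt := fun m => pow_mem xeJt m
  obtain ⟨rho0, hrho0⟩ : ∃ x : RR, x = G (cj u * r1 + cj f * r2) := ⟨_, rfl⟩
  have hE : G (cj u * D1 M eps u f + cj f * D2 M eps u f) = xe ^ (M + 2) * rho0 := by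
    rw [hrho0, ← hG.mul _ (hxM (M + 2)), h1, h2]
    congr 1
    ring
  obtain ⟨rho, hrho⟩ : ∃ x : RR, x = rho0 - cj rho0 := ⟨_, rfl⟩
  have hA : i * dt j + (eps - cj eps) * j = xe ^ M * rho := by
    refine canc 2 _ _ ?_
    rw [hi, ← hS, hE, map_mul, map_pow, cjxe, hrho]
    ring
  -- `j = 1 + xe * k`
  obtain ⟨k, hk⟩ : ∃ k : RR, k = G (h + cj h + xe * (cj h * h)) - xe * G (cj g * g) := ⟨_, rfl⟩
  have hjk : j = 1 + xe * k := by
    have e1 : cj f * f = 1 + xe * (h + cj h + xe * (cj h * h)) := by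
      rw [hf, map_add, map_one, map_mul, cjxe]
      ring
    have e2 : cj u * u = xe * (xe * (cj g * g)) := by
      rw [hu, map_mul, cjxe]
      ring
    rw [hj, e1, e2, map_add, hG.one, hG.mul _ xeJt, hG.mul _ xeJt, hG.mul _ xeJt, hk]
    ring
  have hkJ : k ∈ Jt := by
    rw [hk]
    exact Jt.sub_mem (hG.mem _) (Jt.mul_mem xeJt (hG.mem _))
  have hjJ : j ∈ Jt := by
    rw [hj]
    exact Jt.sub_mem (hG.mem _) (hG.mem _)
  have hkc : cj k = k := by
    refine canc 1 _ _ ?_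
    have e := hSj
    rw [hjk, map_add, map_one, map_mul, cjxe] at e
    rw [pow_one]
    linear_combination e
  obtain ⟨kap, k', r, hkap, hkapc, -, hkap1, hK⟩ := hNRM M j k hjJ hkJ hkc hjk
  -- real and imaginary part
  obtain ⟨eI, heI⟩ : ∃ x : RR, x = -(i * hf') * (eps - cj eps) := ⟨_, rfl⟩
  obtain ⟨eR, heR⟩ : ∃ x : RR, x = hf' * (eps + cj eps) := ⟨_, rfl⟩
  have hsplit : eps - eR = i * eI := by
    rw [heI, heR]
    linear_combination (-(eps)) * hh + (hf' * (eps - cj eps)) * ii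
  have hB : dt j = -2 * eI * j - i * (xe ^ M * rho) := by
    rw [heI]
    linear_combination (-i) * hA + (dt j) * ii + (-(i * (eps - cj eps) * j)) * hh
  have hdxM : dt (xe ^ M) = 0 := by
    rw [Derivation.leibniz_pow, dtxe, smul_zero, smul_zero]
  have hdK : 2 * kap * dt kap * j + kap ^ 2 * dt j = xe ^ M * dt r := by
    have e := congrArg dt hK
    rw [map_add, Derivation.map_one_eq_zero, Derivation.leibniz, Derivation.leibniz,
      Derivation.leibniz_pow, hdxM] at e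
    simp only [smul_eq_mul, nsmul_eq_mul] at e
    norm_num at e
    linear_combination e
  obtain ⟨rho', hrho'⟩ : ∃ x : RR,
      x = hf' * (2 * kap * eI * r - 2 * r * dt kap + i * kap ^ 3 * rho + kap * dt r) := ⟨_, rfl⟩
  have hC : dt kap = kap * eI + xe ^ M * rho' := by
    rw [hrho']
    linear_combination hf' * kap * hdK - 2 * hf' * dt kap * hK - hf' * kap ^ 3 * hB +
      2 * hf' * kap * eI * hK - (dt kap - kap * eI) * hh
  have hdz : dz kap = 0 := (JtP kap hkap).2.2.1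
  have hdb : db kap = 0 := (JtP kap hkap).2.2.2
  have ez : ∀ P : RR, dz (kap * P) = kap * dz P := by
    intro P
    rw [Derivation.leibniz, hdz, smul_zero, add_zero, smul_eq_mul]
  have eb : ∀ P : RR, db (kap * P) = kap * db P := by
    intro P
    rw [Derivation.leibniz, hdb, smul_zero, add_zero, smul_eq_mul]
  have et : ∀ P : RR, dt (kap * P) = kap * dt P + P * dt kap := by
    intro P
    rw [Derivation.leibniz, smul_eq_mul, smul_eq_mul]
  refine ⟨kap * u, kap * f, eR, xe ^ 2 * (kap * r1 - i * rho' * u),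
    xe ^ 2 * (kap * r2 + i * rho' * f), kap * g, k' + h + xe * (k' * h), ?_, ?_, ?_, ?_, ?_, ?_⟩
  · rw [heR, hhf]
    exact Jt.mul_mem (Jt.algebraMap_mem (1 / 2 : ℂ)) (Jt.add_mem heps (JtP eps heps).1)
  · rw [heR, map_mul, map_add, cjcj, cjh]
    ring
  · rw [hu]
    ring
  · rw [hf, hkap1]
    ring
  · unfold D1 at h1 ⊢
    rw [ez, et, cmI]
    rw [cmI] at h1
    linear_combination kap * h1 - (xe ^ 2 * i * u) * hC + (xe ^ 2 * kap * u) * hsplit
  · unfold D2 at h2 ⊢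
    rw [eb, et, cmI]
    rw [cmI] at h2
    linear_combination kap * h2 + (xe ^ 2 * i * f) * hC - (xe ^ 2 * kap * f) * hsplit

end Pool.Agent.FTU.H1
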